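import Mathlib

set_option autoImplicit false

open Matrix Pointwise

namespace Pool.Agent.Results.MP_b8636a_al.RankOne

/-- `U(A_{n-1}, R)`: the subgroup of the simply connected Chevalley group `SL_n(R)` of type
`A_{n-1}` generated by the root unipotents `x_{ij}(ξ) = 1 + ξ e_{ij}` with `i < j`
(the positive roots). -/
def U (n : ℕ) (R : Type*) [CommRing R] : Subgroup (SpecialLinearGroup (Fin n) R) :=
  Subgroup.closure {g | ∃ (i j : Fin n) (ξ : R), i < j ∧
    (g : Matrix (Fin n) (Fin n) R) = Matrix.transvection i j ξ}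

/-- `U^-(A_{n-1}, R)`: the subgroup of `SL_n(R)` generated by the root unipotents
`x_{ij}(ξ) = 1 + ξ e_{ij}` with `j < i` (the negative roots). -/
def Um (n : ℕ) (R : Type*) [CommRing R] : Subgroup (SpecialLinearGroup (Fin n) R) :=
  Subgroup.closure {g | ∃ (i j : Fin n) (ξ : R), j < i ∧
    (g : Matrix (Fin n) (Fin n) R) = Matrix.transvection i j ξ}

section

variable {R : Type*} [CommRing R]

/-- upper elementary matrix -/
def up (a : R) : SpecialLinearGroup (Fin 2) R := ⟨!![1, a; 0, 1], by simp⟩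
/-- lower elementary matrix -/
def lo (a : R) : SpecialLinearGroup (Fin 2) R := ⟨!![1, 0; a, 1], by simp⟩

lemma up_mul (a b : R) : up a * up b = up (a + b) := by
  ext i j
  fin_cases i <;> fin_cases j <;> simp [up, Matrix.mul_apply, Fin.sum_univ_two, add_comm]

lemma lo_mul (a b : R) : lo a * lo b = lo (a + b) := by
  ext i j
  fin_cases i <;> fin_cases j <;> simp [lo, Matrix.mul_apply, Fin.sum_univ_two]

lemma up_zero : up (0 : R) = 1 := by
  ext i j
  fin_cases i <;> fin_cases j <;> simp [up]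

lemma lo_zero : lo (0 : R) = 1 := by
  ext i j
  fin_cases i <;> fin_cases j <;> simp [lo]

lemma mem_U {g : SpecialLinearGroup (Fin 2) R} (hg : g ∈ U 2 R) : ∃ a : R, g = up a := by
  induction hg using Subgroup.closure_induction with
  | mem x hx =>
    obtain ⟨i, j, ξ, hij, h⟩ := hx
    have hi : i = 0 := by omega
    have hj : j = 1 := by omega
    subst hi hj
    refine ⟨ξ, ?_⟩
    ext k l
    rw [h]
    fin_cases k <;> fin_cases l <;> simp [Matrix.transvection, up]
  | one => exact ⟨0, up_zero.symm⟩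
  | mul x y _ _ hx hy =>
    obtain ⟨a, rfl⟩ := hx
    obtain ⟨b, rfl⟩ := hy
    exact ⟨_, up_mul a b⟩
  | inv x _ hx =>
    obtain ⟨a, rfl⟩ := hx
    refine ⟨-a, ?_⟩
    rw [inv_eq_iff_mul_eq_one, up_mul, add_neg_cancel, up_zero]

lemma mem_Um {g : SpecialLinearGroup (Fin 2) R} (hg : g ∈ Um 2 R) : ∃ a : R, g = lo a := by
  induction hg using Subgroup.closure_induction with
  | mem x hx =>
    obtain ⟨i, j, ξ, hij, h⟩ := hx
    have hi : i = 1 := by omega
    have hj : j = 0 := by omega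
    subst hi hj
    refine ⟨ξ, ?_⟩
    ext k l
    rw [h]
    fin_cases k <;> fin_cases l <;> simp [Matrix.transvection, lo]
  | one => exact ⟨0, lo_zero.symm⟩
  | mul x y _ _ hx hy =>
    obtain ⟨a, rfl⟩ := hx
    obtain ⟨b, rfl⟩ := hy
    exact ⟨_, lo_mul a b⟩
  | inv x _ hx =>
    obtain ⟨a, rfl⟩ := hx
    refine ⟨-a, ?_⟩
    rw [inv_eq_iff_mul_eq_one, lo_mul, add_neg_cancel, lo_zero]

lemma up_mem (a : R) : up a ∈ U 2 R := by
  apply Subgroup.subset_closure
  refine ⟨0, 1, a, by decide, ?_⟩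
  ext k l
  fin_cases k <;> fin_cases l <;> simp [up, Matrix.transvection]

lemma lo_mem (a : R) : lo a ∈ Um 2 R := by
  apply Subgroup.subset_closure
  refine ⟨1, 0, a, by decide, ?_⟩
  ext k l
  fin_cases k <;> fin_cases l <;> simp [lo, Matrix.transvection]

end

/-- Size lemma for the case where one outer factor is trivial. -/
lemma arith_zero {R : Type*} [CommRing R] (v : AbsoluteValue R ℝ)
    (h1 : ∀ a : R, a ≠ 0 → 1 ≤ v a) (hv1 : v 1 = 1) (x a b q s B : R)
    (ha : a = 1 + 3 * x ^ 2 + x ^ 4) (hb : b = 2 * x + x ^ 3)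
    (F2 : 2 * v b + 2 < v a) (F3 : 1 < v b) (F4 : v (x ^ 2) < v b) (hx0 : x ^ 2 ≠ 0)
    (hA : a = 1 + s * B) (hB : B = b - q * a) : False := by
  have hs : s ≠ 0 := by
    rintro rfl
    rw [zero_mul, add_zero] at hA
    rw [hA, hv1] at F2
    have := v.nonneg b
    linarith
  have hS := h1 s hs
  have key : (1 + s * q) * a = 1 + s * b := by
    rw [hB] at hA
    linear_combination hA
  by_cases hsq : 1 + s * q = 0
  · rw [hsq, zero_mul] at key
    have h2 : s * b = -1 := by linear_combination -key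
    have h3 := congrArg v h2
    rw [v.map_mul, v.map_neg, hv1] at h3
    nlinarith
  · by_cases hq : q = 0
    · subst hq
      have h2 : (s - x) * b = x ^ 2 := by
        rw [mul_zero, add_zero, one_mul] at key
        rw [ha, hb] at key
        rw [hb]
        linear_combination -key
      by_cases h3 : s - x = 0
      · rw [h3, zero_mul] at h2
        exact hx0 h2.symm
      · have h4 := h1 _ h3
        have h5 := congrArg v h2
        rw [v.map_mul] at h5
        nlinarith
    · have hQ := h1 q hq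
      have hT := h1 _ hsq
      have hT2 : v s * v q ≤ v (1 + s * q) + 1 := by
        have h2 : s * q = (1 + s * q) - 1 := by ring
        have h3 := v.sub_le_add (1 + s * q) 1
        rw [← h2, v.map_mul, hv1] at h3
        exact h3
      have h5 : v (1 + s * q) * v a ≤ 1 + v s * v b := by
        rw [← v.map_mul, key]
        have := v.add_le 1 (s * b)
        rw [v.map_mul, hv1] at this
        exact this
      have h6 : v s * v q / 2 ≤ v (1 + s * q) := by linarith
      have h7 : v s / 2 ≤ v (1 + s * q) := by nlinarith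
      have h8 : v s / 2 * v a ≤ 1 + v s * v b :=
        le_trans (mul_le_mul_of_nonneg_right h7 (v.nonneg a)) h5
      nlinarith

/-- The arithmetic heart: the equations satisfied by a second factorisation are impossible. -/
lemma arith {R : Type*} [CommRing R] (v : AbsoluteValue R ℝ) (h1 : ∀ a : R, a ≠ 0 → 1 ≤ v a)
    (hv1 : v 1 = 1)
    (x : R) (hx : 20 ≤ v x) (p q r s B : R)
    (hA : 1 + 3 * x ^ 2 + x ^ 4 - p * (3 * x + 4 * x ^ 3 + x ^ 5) = 1 + s * B)
    (hD : 1 + 3 * x ^ 2 + x ^ 4 - q * (3 * x + 4 * x ^ 3 + x ^ 5) = 1 + r * B)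
    (hB : B = 2 * x + x ^ 3 - p * (1 + 3 * x ^ 2 + x ^ 4) - q * (1 + 3 * x ^ 2 + x ^ 4)
      + p * q * (3 * x + 4 * x ^ 3 + x ^ 5)) : False := by
  obtain ⟨a, ha⟩ : ∃ a : R, a = 1 + 3 * x ^ 2 + x ^ 4 := ⟨_, rfl⟩
  obtain ⟨b, hb⟩ : ∃ b : R, b = 2 * x + x ^ 3 := ⟨_, rfl⟩
  obtain ⟨c, hc⟩ : ∃ c : R, c = 3 * x + 4 * x ^ 3 + x ^ 5 := ⟨_, rfl⟩
  rw [← ha, ← hc] at hA hD
  rw [← ha, ← hb, ← hc] at hB
  -- sizes
  have hpow : ∀ k : ℕ, v (x ^ k) = v x ^ k := by
    intro k
    induction k with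
    | zero => simp [hv1]
    | succ k ih => rw [pow_succ, v.map_mul, ih, pow_succ]
  have hv2 : v (2 : R) ≤ 2 := by
    have := v.add_le 1 1
    rw [hv1] at this
    norm_num at this
    exact this
  have hv3 : v (3 : R) ≤ 3 := by
    have := v.add_le 2 1
    rw [hv1] at this
    have e : (2 : R) + 1 = 3 := by norm_num
    rw [e] at this
    linarith
  have hv4 : v (4 : R) ≤ 4 := by
    have := v.add_le 3 1
    rw [hv1] at this
    have e : (3 : R) + 1 = 4 := by norm_num
    rw [e] at this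
    linarith
  obtain ⟨N, hN⟩ : ∃ N : ℝ, N = v x := ⟨_, rfl⟩
  rw [← hN] at hx hpow
  have hN2 : 0 ≤ N ^ 2 := by positivity
  have hN3 : 0 ≤ N ^ 3 := by positivity
  have t1 : v (3 * x ^ 2) ≤ 3 * N ^ 2 := by
    rw [v.map_mul, hpow]; exact mul_le_mul_of_nonneg_right hv3 hN2
  have t2 : v (2 * x) ≤ 2 * N := by
    rw [v.map_mul, ← hN]; exact mul_le_mul_of_nonneg_right hv2 (by linarith)
  have t3 : v (3 * x) ≤ 3 * N := by
    rw [v.map_mul, ← hN]; exact mul_le_mul_of_nonneg_right hv3 (by linarith)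
  have t4 : v (4 * x ^ 3) ≤ 4 * N ^ 3 := by
    rw [v.map_mul, hpow]; exact mul_le_mul_of_nonneg_right hv4 hN3
  have Aup : v a ≤ 1 + 3 * N ^ 2 + N ^ 4 := by
    rw [ha]
    have := v.add_le (1 + 3 * x ^ 2) (x ^ 4)
    have h' := v.add_le 1 (3 * x ^ 2)
    rw [hpow] at this
    rw [hv1] at h'
    linarith
  have Alo : N ^ 4 - 3 * N ^ 2 - 1 ≤ v a := by
    have e : x ^ 4 = a - (1 + 3 * x ^ 2) := by rw [ha]; ring
    have := v.sub_le_add a (1 + 3 * x ^ 2)
    rw [← e, hpow] at this
    have h' := v.add_le 1 (3 * x ^ 2)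
    rw [hv1] at h'
    linarith
  have Bup : v b ≤ 2 * N + N ^ 3 := by
    rw [hb]
    have := v.add_le (2 * x) (x ^ 3)
    rw [hpow] at this
    linarith
  have Blo : N ^ 3 - 2 * N ≤ v b := by
    have e : x ^ 3 = b - (2 * x) := by rw [hb]; ring
    have := v.sub_le_add b (2 * x)
    rw [← e, hpow] at this
    linarith
  have Clo : N ^ 5 - 4 * N ^ 3 - 3 * N ≤ v c := by
    have e : x ^ 5 = c - (3 * x + 4 * x ^ 3) := by rw [hc]; ring
    have := v.sub_le_add c (3 * x + 4 * x ^ 3)
    rw [← e, hpow] at this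
    have h' := v.add_le (3 * x) (4 * x ^ 3)
    linarith
  have p2 : 20 * N ≤ N ^ 2 := by nlinarith
  have p3 : 20 * N ^ 2 ≤ N ^ 3 := by nlinarith
  have p4 : 20 * N ^ 3 ≤ N ^ 4 := by nlinarith
  have p5 : 20 * N ^ 4 ≤ N ^ 5 := by nlinarith [pow_nonneg (by linarith : (0 : ℝ) ≤ N) 4]
  have F1 : 5 * v a + 2 * v b + 1 < v c := by linarith
  have F2 : 2 * v b + 2 < v a := by linarith
  have F3 : 1 < v b := by linarith
  have F4 : v (x ^ 2) < v b := by rw [hpow]; linarith
  have hx0 : x ^ 2 ≠ 0 := by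
    intro h
    have := hpow 2
    rw [h, v.map_zero] at this
    nlinarith
  by_cases hp : p = 0
  · subst hp
    exact arith_zero v h1 hv1 x a b q s B ha hb F2 F3 F4 hx0 (by linear_combination hA)
      (by linear_combination hB)
  by_cases hq : q = 0
  · subst hq
    exact arith_zero v h1 hv1 x a b p r B ha hb F2 F3 F4 hx0 (by linear_combination hD)
      (by linear_combination hB)
  have hP := h1 p hp
  have hQ := h1 q hq
  have hAn := v.nonneg a
  have hBn := v.nonneg b
  have hCn := v.nonneg c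
  -- s is nonzero
  have hs : s ≠ 0 := by
    rintro rfl
    have e : p * c = a - 1 := by linear_combination -hA
    have h2 := congrArg v e
    rw [v.map_mul] at h2
    have h3 := v.sub_le_add a 1
    rw [hv1] at h3
    nlinarith
  have hS := h1 s hs
  obtain ⟨P, hPe⟩ : ∃ P : ℝ, P = v p := ⟨_, rfl⟩
  obtain ⟨Q, hQe⟩ : ∃ Q : ℝ, Q = v q := ⟨_, rfl⟩
  obtain ⟨S, hSe⟩ : ∃ S : ℝ, S = v s := ⟨_, rfl⟩
  obtain ⟨A', hA'⟩ : ∃ A' : ℝ, A' = v a := ⟨_, rfl⟩
  obtain ⟨B', hB'⟩ : ∃ B' : ℝ, B' = v b := ⟨_, rfl⟩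
  obtain ⟨C', hC'⟩ : ∃ C' : ℝ, C' = v c := ⟨_, rfl⟩
  rw [← hPe] at hP
  rw [← hQe] at hQ
  rw [← hSe] at hS
  have hvB : P * Q * C' ≤ v B + P * A' + Q * A' + B' := by
    have e : p * q * c = B + p * a + (q * a - b) := by rw [hB]; ring
    have h2 := v.add_le (B + p * a) (q * a - b)
    have h3 := v.add_le B (p * a)
    have h4 := v.sub_le_add (q * a) b
    rw [← e] at h2
    simp only [v.map_mul, ← hPe, ← hQe, ← hA', ← hB', ← hC'] at h2 h3 h4
    linarith
  have hvS : S * v B ≤ A' + 1 + P * C' := by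
    have e : s * B = a - 1 - p * c := by linear_combination -hA
    have h2 := congrArg v e
    have h3 := v.sub_le_add (a - 1) (p * c)
    have h4 := v.sub_le_add a 1
    rw [← h2] at h3
    simp only [v.map_mul, ← hPe, ← hSe, ← hA', ← hC', hv1] at h3 h4
    linarith
  rw [← hA', ← hB', ← hC'] at F1
  rw [← hA', ← hB'] at F2
  rw [← hB'] at F3
  rw [← hA'] at hAn
  rw [← hB'] at hBn
  have hPQ : 1 ≤ P * Q := by nlinarith
  have hPPQ : P ≤ P * Q := by nlinarith
  have hQPQ : Q ≤ P * Q := by nlinarith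
  have k1 : P * Q * (C' - 2 * A' - B') ≤ v B := by
    have e1 : P * A' ≤ P * Q * A' := mul_le_mul_of_nonneg_right hPPQ hAn
    have e2 : Q * A' ≤ P * Q * A' := mul_le_mul_of_nonneg_right hQPQ hAn
    have e3 : 1 * B' ≤ P * Q * B' := mul_le_mul_of_nonneg_right hPQ hBn
    nlinarith
  have k2 : S * (P * Q * (C' - 2 * A' - B')) ≤ A' + 1 + P * C' :=
    le_trans (mul_le_mul_of_nonneg_left k1 (by linarith)) hvS
  have k3 : P * (S * Q * (C' - 2 * A' - B')) ≤ P * (A' + 1 + C') := by nlinarith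
  have k4 : S * Q * (C' - 2 * A' - B') ≤ A' + 1 + C' := le_of_mul_le_mul_left k3 (by linarith)
  have k5 : S * Q < 2 := by
    by_contra h
    push Not at h
    have : 2 * (C' - 2 * A' - B') ≤ S * Q * (C' - 2 * A' - B') :=
      mul_le_mul_of_nonneg_right h (by linarith)
    linarith
  have k6 : S < 2 := by nlinarith
  have key : p * c * (1 + s * q) = a - 1 - s * b + s * p * a + s * q * a := by
    rw [hB] at hA
    linear_combination -hA
  by_cases hsq : 1 + s * q = 0
  · have e : s * (p * a - b) = 1 := by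
      rw [hsq, mul_zero] at key
      linear_combination -key - a * hsq
    have h2 := congrArg v e
    have h3 := v.sub_le_add (p * a) (p * a - b)
    have e2 : p * a - (p * a - b) = b := by ring
    have h4 : P * A' ≤ v (p * a - b) + B' := by
      have h5 := v.add_le (p * a - b) b
      have e3 : p * a - b + b = p * a := by ring
      rw [e3, v.map_mul, ← hPe, ← hA', ← hB'] at h5
      exact h5
    rw [v.map_mul, ← hSe, hv1] at h2
    have h6 : 1 * A' ≤ P * A' := mul_le_mul_of_nonneg_right hP hAn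
    have h7 : 1 * v (p * a - b) ≤ S * v (p * a - b) :=
      mul_le_mul_of_nonneg_right hS (v.nonneg _)
    linarith
  · have hT := h1 _ hsq
    have h2 := congrArg v key
    simp only [v.map_mul, ← hPe, ← hC'] at h2
    have h3 := v.add_le (a - 1 - s * b + s * p * a) (s * q * a)
    have h4 := v.add_le (a - 1 - s * b) (s * p * a)
    have h5 := v.sub_le_add (a - 1) (s * b)
    have h6 := v.sub_le_add a 1
    rw [← h2] at h3
    simp only [v.map_mul, ← hPe, ← hQe, ← hSe, ← hA', ← hB', hv1] at h3 h4 h5 h6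
    have hPC : 0 ≤ P * C' := mul_nonneg (by linarith) (by rw [hC']; exact v.nonneg _)
    have h7' : P * C' * 1 ≤ P * C' * v (1 + s * q) := mul_le_mul_of_nonneg_left hT hPC
    have h7 : P * C' ≤ A' + 1 + S * B' + S * P * A' + S * Q * A' := by linarith
    have h8 : S * B' ≤ 2 * B' := mul_le_mul_of_nonneg_right k6.le hBn
    have h9 : S * (P * A') ≤ 2 * (P * A') :=
      mul_le_mul_of_nonneg_right k6.le (mul_nonneg (by linarith) hAn)
    have h10 : S * Q * A' ≤ 2 * A' := mul_le_mul_of_nonneg_right k5.le hAn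
    have h13 : 1 * (3 * A' + 2 * B' + 1) ≤ P * (3 * A' + 2 * B' + 1) :=
      mul_le_mul_of_nonneg_right hP (by linarith)
    have h11 : P * C' ≤ P * (5 * A' + 2 * B' + 1) := by
      have e4 : S * P * A' = S * (P * A') := by ring
      have e5 : P * (5 * A' + 2 * B' + 1) = P * (3 * A' + 2 * B' + 1) + 2 * (P * A') := by ring
      rw [e4] at h7
      rw [e5]
      linarith
    have h12 := le_of_mul_le_mul_left h11 (by linarith)
    linarith

/-- Let `R` be a commutative ring with an absolute value `v` such that `v a ≥ 1` for all nonzero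
`a` and `v x > 1` for some `x` (for example `ℤ`, an order of an imaginary quadratic field, or a
polynomial ring over a domain). Then `U^-UU^-UU^- ≠ UU^-UU^-U` in `SL_2(R)`, the simply connected
Chevalley group of type `A_1` over `R`. -/
theorem result {R : Type*} [CommRing R] (v : AbsoluteValue R ℝ)
    (h1 : ∀ a : R, a ≠ 0 → 1 ≤ v a) (h2 : ∃ x : R, 1 < v x) :
    (Um 2 R : Set (SpecialLinearGroup (Fin 2) R)) * (U 2 R) * (Um 2 R) * (U 2 R) * (Um 2 R) ≠
      (U 2 R : Set (SpecialLinearGroup (Fin 2) R)) * (Um 2 R) * (U 2 R) * (Um 2 R) * (U 2 R) := by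
  obtain ⟨y, hy⟩ := h2
  obtain ⟨m, hm⟩ := pow_unbounded_of_one_lt (20 : ℝ) hy
  have hv1 : v 1 = 1 := by
    have hne : v 1 ≠ 0 := by
      intro h
      have : v y = 0 := by
        have := v.map_mul y 1
        rw [mul_one, h, mul_zero] at this
        exact this
      rw [this] at hy
      norm_num at hy
    have h := v.map_mul 1 1
    rw [mul_one] at h
    exact (mul_left_cancel₀ hne (by rw [mul_one]; exact h)).symm
  have hpow : ∀ k : ℕ, v (y ^ k) = v y ^ k := by
    intro k
    induction k with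
    | zero => simp [hv1]
    | succ k ih => rw [pow_succ, v.map_mul, ih, pow_succ]
  have hx : 20 ≤ v (y ^ m) := by rw [hpow]; exact hm.le
  generalize y ^ m = x at hx
  intro h
  have hM : lo x * up x * lo x * up x * lo x ∈
      (Um 2 R : Set (SpecialLinearGroup (Fin 2) R)) * (U 2 R) * (Um 2 R) * (U 2 R) * (Um 2 R) :=
    Set.mul_mem_mul (Set.mul_mem_mul (Set.mul_mem_mul (Set.mul_mem_mul (lo_mem x) (up_mem x))
      (lo_mem x)) (up_mem x)) (lo_mem x)
  rw [h] at hM
  obtain ⟨m4, ⟨m3, ⟨m2, ⟨g1, hg1, g2, hg2, rfl⟩, g3, hg3, rfl⟩, g4, hg4, rfl⟩, g5, hg5, hM⟩ := hM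
  obtain ⟨p, rfl⟩ := mem_U hg1
  obtain ⟨r, rfl⟩ := mem_Um hg2
  obtain ⟨B, rfl⟩ := mem_U hg3
  obtain ⟨s, rfl⟩ := mem_Um hg4
  obtain ⟨q, rfl⟩ := mem_U hg5
  have hM2 : lo r * up B * lo s = up (-p) * (lo x * up x * lo x * up x * lo x) * up (-q) := by
    simp only at hM
    rw [← hM]
    simp only [← mul_assoc, up_mul, neg_add_cancel, up_zero, one_mul]
    rw [mul_assoc _ (up q), up_mul, add_neg_cancel, up_zero, mul_one]
  have e00 := congrArg (fun g : SpecialLinearGroup (Fin 2) R => g 0 0) hM2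
  have e01 := congrArg (fun g : SpecialLinearGroup (Fin 2) R => g 0 1) hM2
  have e11 := congrArg (fun g : SpecialLinearGroup (Fin 2) R => g 1 1) hM2
  simp [Matrix.mul_apply, Fin.sum_univ_two, up, lo] at e00 e01 e11
  refine arith v h1 hv1 x hx p q r s B ?_ ?_ ?_
  · linear_combination -e00
  · linear_combination -e11
  · linear_combination e01

/-- The ring of integers is an instance of the theorem, so the two five-fold products already
differ in `SL_2(ℤ)`. -/
theorem int_case :
    (Um 2 ℤ : Set (SpecialLinearGroup (Fin 2) ℤ)) * (U 2 ℤ) * (Um 2 ℤ) * (U 2 ℤ) * (Um 2 ℤ) ≠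
      (U 2 ℤ : Set (SpecialLinearGroup (Fin 2) ℤ)) * (Um 2 ℤ) * (U 2 ℤ) * (Um 2 ℤ) * (U 2 ℤ) := by
  refine result (R := ℤ)
    { toFun := fun a => |(a : ℝ)|
      map_mul' := fun a b => by rw [Int.cast_mul, abs_mul]
      nonneg' := fun a => abs_nonneg _
      eq_zero' := fun a => by simp
      add_le' := fun a b => by rw [Int.cast_add]; exact abs_add_le _ _ } ?_ ⟨2, ?_⟩
  · intro a ha
    change 1 ≤ |(a : ℝ)|
    exact_mod_cast Int.one_le_abs ha
  · change 1 < |((2 : ℤ) : ℝ)|
    norm_num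

end Pool.Agent.Results.MP_b8636a_al.RankOne
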